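import Pool.Agent.H67.IC.Main

/-!
# Consecutive colourings of (a, 2a)-biregular graphs: the factor `H` for `a ≤ 4`, and simple graphs
-/

set_option autoImplicit false

namespace Pool.Agent.H67.IC

open Finset

open Classical in
/-- A bipartite graph with degrees `k` on `X` and `2 k` on `Y` has a spanning subgraph with degrees
`1` on `X` and `2` on `Y`. -/
theorem exists_nb {X Y : Type} [Fintype X] [Fintype Y] (k : ℕ) (hk : 0 < k) (adj : X → Y → Prop)
    (dX : ∀ x, (univ.filter (fun y => adj x y)).card = k)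
    (dY : ∀ y, (univ.filter (fun x => adj x y)).card = 2 * k) :
    ∃ nb : X → Y, (∀ x, adj x (nb x)) ∧ ∀ y, (univ.filter (fun x => nb x = y)).card = 2 := by
  have hF : ∀ y, ∃ F ⊆ univ.filter (fun x => adj x y), F.card = k := fun y =>
    exists_subset_card_eq (by rw [dY]; omega)
  choose F hF hFc using hF
  have hFa : ∀ y x, x ∈ F y → adj x y := fun y x h => (mem_filter.mp (hF y h)).2
  set S : Finset (X × Y) := univ.filter (fun e => adj e.1 e.2) with hS
  have hSl : ∀ x, (S.filter (fun e => e.1 = x)).card = k := by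
    intro x
    rw [← dX x]
    refine card_bij (fun e _ => e.2) ?_ ?_ ?_
    · intro e he
      obtain ⟨h1, h2⟩ := mem_filter.mp he
      have h3 := (mem_filter.mp h1).2
      rw [h2] at h3
      exact mem_filter.mpr ⟨mem_univ _, h3⟩
    · intro e he e' he' hh
      exact Prod.ext ((mem_filter.mp he).2.trans (mem_filter.mp he').2.symm) hh
    · intro y hy
      exact ⟨(x, y), mem_filter.mpr ⟨mem_filter.mpr ⟨mem_univ _, (mem_filter.mp hy).2⟩, rfl⟩, rfl⟩
  have hSr : ∀ b : Y × Bool, (S.filter (fun e => (e.2, decide (e.1 ∈ F e.2)) = b)).card = k := by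
    rintro ⟨y, b⟩
    cases b with
    | true =>
      rw [← hFc y]
      refine card_bij (fun e _ => e.1) ?_ ?_ ?_
      · intro e he
        have h2 := (mem_filter.mp he).2
        simp only [Prod.mk.injEq, decide_eq_true_eq] at h2
        rw [← h2.1]
        exact h2.2
      · intro e he e' he' hh
        have h1 := (mem_filter.mp he).2
        have h2 := (mem_filter.mp he').2
        simp only [Prod.mk.injEq, decide_eq_true_eq] at h1 h2
        exact Prod.ext hh (h1.1.trans h2.1.symm)
      · intro x hx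
        refine ⟨(x, y), mem_filter.mpr ⟨mem_filter.mpr ⟨mem_univ _, hFa y x hx⟩, ?_⟩, rfl⟩
        simp only [Prod.mk.injEq, decide_eq_true_eq, true_and]
        exact hx
    | false =>
      have h0 : ((univ.filter (fun x => adj x y)) \ F y).card = k := by
        rw [card_sdiff_of_subset (hF y), dY, hFc]
        omega
      rw [← h0]
      refine card_bij (fun e _ => e.1) ?_ ?_ ?_
      · intro e he
        obtain ⟨h1, h2⟩ := mem_filter.mp he
        have h3 := (mem_filter.mp h1).2
        simp only [Prod.mk.injEq, decide_eq_false_iff_not] at h2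
        rw [h2.1] at h3
        refine mem_sdiff.mpr ⟨mem_filter.mpr ⟨mem_univ _, h3⟩, ?_⟩
        rw [← h2.1]
        exact h2.2
      · intro e he e' he' hh
        have h1 := (mem_filter.mp he).2
        have h2 := (mem_filter.mp he').2
        simp only [Prod.mk.injEq, decide_eq_false_iff_not] at h1 h2
        exact Prod.ext hh (h1.1.trans h2.1.symm)
      · intro x hx
        obtain ⟨hx1, hx2⟩ := mem_sdiff.mp hx
        refine ⟨(x, y), mem_filter.mpr ⟨mem_filter.mpr ⟨mem_univ _, (mem_filter.mp hx1).2⟩, ?_⟩,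
          rfl⟩
        simp only [Prod.mk.injEq, decide_eq_false_iff_not, true_and]
        exact hx2
  obtain ⟨T, hTS, hTl, hTr⟩ := exists_matching S (fun e => e.1)
    (fun e => (e.2, decide (e.1 ∈ F e.2))) k hk hSl hSr
  have hnb : ∀ x, ∃ y, (x, y) ∈ T := by
    intro x
    obtain ⟨e, he⟩ := card_eq_one.mp (hTl x)
    have hm : e ∈ T.filter (fun e => e.1 = x) := by rw [he]; exact mem_singleton_self e
    refine ⟨e.2, ?_⟩
    have h1 := (mem_filter.mp hm).2
    rw [← h1]
    exact (mem_filter.mp hm).1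
  choose nb hnb using hnb
  have huniq : ∀ e ∈ T, e.2 = nb e.1 := by
    intro e he
    have h1 : e = (e.1, nb e.1) := eq_of_card_one (l := fun e : X × Y => e.1) (hTl e.1) he
      (hnb e.1) rfl rfl
    exact congrArg Prod.snd h1
  refine ⟨nb, fun x => (mem_filter.mp (hTS (hnb x))).2, fun y => ?_⟩
  have h1 : (univ.filter (fun x => nb x = y)).card = (T.filter (fun e => e.2 = y)).card := by
    refine card_bij (fun x _ => (x, nb x)) ?_ ?_ ?_
    · intro x hx
      exact mem_filter.mpr ⟨hnb x, (mem_filter.mp hx).2⟩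
    · intro x _ x' _ hh
      exact congrArg Prod.fst hh
    · intro e he
      obtain ⟨h1, h2⟩ := mem_filter.mp he
      have h3 := huniq e h1
      exact ⟨e.1, mem_filter.mpr ⟨mem_univ _, h3.symm.trans h2⟩, Prod.ext rfl h3.symm⟩
  have h2 : T.filter (fun e => e.2 = y) =
      (T.filter (fun e => (e.2, decide (e.1 ∈ F e.2)) = (y, true))) ∪
        (T.filter (fun e => (e.2, decide (e.1 ∈ F e.2)) = (y, false))) := by
    ext e
    simp only [mem_filter, mem_union, Prod.mk.injEq, decide_eq_true_eq, decide_eq_false_iff_not]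
    tauto
  rw [h1, h2, card_union_of_disjoint, hTr, hTr]
  rw [disjoint_left]
  intro e he he'
  have h3 := (mem_filter.mp he).2
  have h4 := (mem_filter.mp he').2
  rw [h3] at h4
  simp at h4

open Classical in
/-- The factor `H` for `a = 4`. -/
theorem split4 {X Y : Type} [Fintype X] [Fintype Y] (adj : X → Y → Prop)
    (dX : ∀ x, (univ.filter (fun y => adj x y)).card = 4)
    (dY : ∀ y, (univ.filter (fun x => adj x y)).card = 8) :
    ∃ (H : X → Y → Prop) (low : X → Prop), (∀ x y, H x y → adj x y) ∧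
      (∀ x, (univ.filter (fun y => H x y)).card = 2) ∧
      (∀ y, (univ.filter (fun x => H x y ∧ low x)).card = 2) ∧
      (∀ y, (univ.filter (fun x => H x y ∧ ¬ low x)).card = 2) := by
  obtain ⟨n0, h0, c0⟩ := exists_nb 4 (by norm_num) adj dX dY
  obtain ⟨adj', hadj'⟩ : ∃ adj' : X → Y → Prop, ∀ x y, adj' x y ↔ (adj x y ∧ y ≠ n0 x) :=
    ⟨_, fun _ _ => Iff.rfl⟩
  obtain ⟨n1, h1, c1⟩ := exists_nb 3 (by norm_num) adj'
    (fun x => by
      have e : univ.filter (fun y => adj' x y) = (univ.filter (fun y => adj x y)).erase (n0 x) := by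
        ext y
        simp only [mem_filter, mem_univ, true_and, mem_erase, hadj']
        tauto
      rw [e, card_erase_of_mem (mem_filter.mpr ⟨mem_univ _, h0 x⟩), dX])
    (fun y => by
      have e : univ.filter (fun x => adj' x y) =
          (univ.filter (fun x => adj x y)) \ (univ.filter (fun x => n0 x = y)) := by
        ext x
        simp only [mem_filter, mem_univ, true_and, mem_sdiff, hadj']
        constructor
        · rintro ⟨h, h'⟩
          exact ⟨h, fun e => h' e.symm⟩
        · rintro ⟨h, h'⟩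
          exact ⟨h, fun e => h' e.symm⟩
      rw [e, card_sdiff_of_subset, dY, c0]
      intro x hx
      have := (mem_filter.mp hx).2
      exact mem_filter.mpr ⟨mem_univ _, this ▸ h0 x⟩)
  obtain ⟨L, -, hL0, hL1⟩ := exists_matching (univ : Finset X) n0 n1 2 (by norm_num) c0 c1
  have hne : ∀ x, n1 x ≠ n0 x := fun x => ((hadj' _ _).mp (h1 x)).2
  obtain ⟨H, hH⟩ : ∃ H : X → Y → Prop, ∀ x y, H x y ↔ (y = n0 x ∨ y = n1 x) :=
    ⟨_, fun _ _ => Iff.rfl⟩
  obtain ⟨low, hlow⟩ : ∃ low : X → Prop, ∀ x, low x ↔ x ∈ L := ⟨_, fun _ => Iff.rfl⟩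
  refine ⟨H, low, ?_, ?_, ?_, ?_⟩
  · intro x y hxy
    rcases (hH x y).mp hxy with rfl | rfl
    · exact h0 x
    · exact ((hadj' _ _).mp (h1 x)).1
  · intro x
    have e : univ.filter (fun y => H x y) = {n0 x, n1 x} := by
      ext y
      simp only [mem_filter, mem_univ, true_and, mem_insert, mem_singleton, hH]
    rw [e, card_pair (fun h => hne x h.symm)]
  · intro y
    have e : univ.filter (fun x => H x y ∧ low x) =
        (L.filter (fun x => n0 x = y)) ∪ (L.filter (fun x => n1 x = y)) := by
      ext x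
      simp only [mem_filter, mem_univ, true_and, mem_union, hH, hlow]
      constructor
      · rintro ⟨h | h, h'⟩
        · exact Or.inl ⟨h', h.symm⟩
        · exact Or.inr ⟨h', h.symm⟩
      · rintro (⟨h', h⟩ | ⟨h', h⟩)
        · exact ⟨Or.inl h.symm, h'⟩
        · exact ⟨Or.inr h.symm, h'⟩
    rw [e, card_union_of_disjoint, hL0, hL1]
    rw [disjoint_left]
    intro x hx hx'
    exact hne x ((mem_filter.mp hx').2.trans (mem_filter.mp hx).2.symm)
  · intro y
    have e : univ.filter (fun x => H x y ∧ ¬ low x) =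
        ((univ \ L).filter (fun x => n0 x = y)) ∪ ((univ \ L).filter (fun x => n1 x = y)) := by
      ext x
      simp only [mem_filter, mem_univ, true_and, mem_union, mem_sdiff, hH, hlow]
      constructor
      · rintro ⟨h | h, h'⟩
        · exact Or.inl ⟨h', h.symm⟩
        · exact Or.inr ⟨h', h.symm⟩
      · rintro (⟨h', h⟩ | ⟨h', h⟩)
        · exact ⟨Or.inl h.symm, h'⟩
        · exact ⟨Or.inr h.symm, h'⟩
    rw [e, card_union_of_disjoint, card_filter_sdiff univ L (subset_univ L) n0,
      card_filter_sdiff univ L (subset_univ L) n1, c0, c1, hL0, hL1]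
    rw [disjoint_left]
    intro x hx hx'
    exact hne x ((mem_filter.mp hx').2.trans (mem_filter.mp hx).2.symm)

open Classical in
/-- The factor `H` for `a = 3`. -/
theorem split3 {X Y : Type} [Fintype X] [Fintype Y] (adj : X → Y → Prop)
    (dX : ∀ x, (univ.filter (fun y => adj x y)).card = 3)
    (dY : ∀ y, (univ.filter (fun x => adj x y)).card = 6) :
    ∃ (H : X → Y → Prop) (low : X → Prop), (∀ x y, H x y → adj x y) ∧
      (∀ x, (univ.filter (fun y => H x y)).card = 1) ∧
      (∀ y, (univ.filter (fun x => H x y ∧ low x)).card = 1) ∧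
      (∀ y, (univ.filter (fun x => H x y ∧ ¬ low x)).card = 1) := by
  obtain ⟨n0, h0, c0⟩ := exists_nb 3 (by norm_num) adj dX dY
  obtain ⟨L, -, hL0, -⟩ := exists_matching (univ : Finset X) n0 n0 2 (by norm_num) c0 c0
  obtain ⟨H, hH⟩ : ∃ H : X → Y → Prop, ∀ x y, H x y ↔ y = n0 x := ⟨_, fun _ _ => Iff.rfl⟩
  obtain ⟨low, hlow⟩ : ∃ low : X → Prop, ∀ x, low x ↔ x ∈ L := ⟨_, fun _ => Iff.rfl⟩
  refine ⟨H, low, ?_, ?_, ?_, ?_⟩
  · intro x y hxy
    rw [(hH x y).mp hxy]
    exact h0 x
  · intro x
    have e : univ.filter (fun y => H x y) = {n0 x} := by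
      ext y
      simp only [mem_filter, mem_univ, true_and, mem_singleton, hH]
    rw [e, card_singleton]
  · intro y
    have e : univ.filter (fun x => H x y ∧ low x) = L.filter (fun x => n0 x = y) := by
      ext x
      simp only [mem_filter, mem_univ, true_and, hH, hlow]
      constructor
      · rintro ⟨h, h'⟩
        exact ⟨h', h.symm⟩
      · rintro ⟨h', h⟩
        exact ⟨h.symm, h'⟩
    rw [e, hL0]
  · intro y
    have e : univ.filter (fun x => H x y ∧ ¬ low x) = (univ \ L).filter (fun x => n0 x = y) := by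
      ext x
      simp only [mem_filter, mem_univ, true_and, mem_sdiff, hH, hlow]
      constructor
      · rintro ⟨h, h'⟩
        exact ⟨h', h.symm⟩
      · rintro ⟨h', h⟩
        exact ⟨h.symm, h'⟩
    rw [e, card_filter_sdiff univ L (subset_univ L) n0, c0, hL0]

theorem card_of_ncard {V : Type} (p : V → Prop) [Fintype {v : V // p v}] (N : Set V)
    (hN : ∀ v ∈ N, p v) (q : {v : V // p v} → Prop) [DecidablePred q]
    (hq : ∀ v, q v ↔ (v : V) ∈ N) :
    (univ.filter (fun y : {v : V // p v} => q y)).card = N.ncard := by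
  have h1 : N = (Subtype.val '' {y : {v : V // p v} | q y}) := by
    ext v
    constructor
    · intro hv
      exact ⟨⟨v, hN v hv⟩, (hq _).mpr hv, rfl⟩
    · rintro ⟨y, hy, rfl⟩
      exact (hq y).mp hy
  rw [h1, Set.ncard_image_of_injective _ Subtype.val_injective, ← Set.ncard_coe_finset]
  congr 1
  ext y
  simp only [coe_filter, mem_univ, true_and, Set.mem_setOf_eq]

/-- A set of `d` vertices with distinct colours in a window of `d` colours has every colour of the
window. -/
theorem window {V : Type} [Fintype V] (N : Set V) (f : V → ℕ) (p : ℕ)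
    (hinj : ∀ w ∈ N, ∀ w' ∈ N, f w = f w' → w = w')
    (hwin : ∀ w ∈ N, p ≤ f w ∧ f w < p + N.ncard) (k : ℕ) (h1 : p ≤ k) (h2 : k < p + N.ncard) :
    ∃ u ∈ N, f u = k := by
  have hsub : f '' N ⊆ (Finset.Ico p (p + N.ncard) : Finset ℕ) := by
    rintro _ ⟨w, hw, rfl⟩
    rw [coe_Ico]
    exact hwin w hw
  have hc : (f '' N).ncard = N.ncard := Set.ncard_image_of_injOn (fun w hw w' hw' h =>
    hinj w hw w' hw' h)
  have heq : f '' N = (Finset.Ico p (p + N.ncard) : Finset ℕ) := by
    refine Set.eq_of_subset_of_ncard_le hsub ?_ (Finset.finite_toSet _)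
    rw [hc, Set.ncard_coe_finset, Nat.card_Ico]
    omega
  have hk : k ∈ f '' N := by
    rw [heq, coe_Ico]
    exact ⟨h1, h2⟩
  obtain ⟨u, hu, hfu⟩ := hk
  exact ⟨u, hu, hfu⟩

end Pool.Agent.H67.IC
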