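import Pool.Agent.H67.IC.Match

/-!
# Consecutive colourings of (a, 2a)-biregular graphs: the colouring of the (2,4)-factor

`E` is the set of the edges of a bipartite graph with degrees `2` on `X` and `4` on `Y`; the vertices of
`X` are low or high. The positions at a low vertex are `i, i + 1` with `1 ≤ i ≤ 3`, those at a high
vertex `i, i + 1` with `3 ≤ i ≤ 5`, and those at a vertex of `Y` are four consecutive numbers.
-/

set_option autoImplicit false

namespace Pool.Agent.H67.IC

open Finset

theorem two_fiber {E : Type} [DecidableEq E] {S : Finset E} (h : S.card = 2) {a b c : E}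
    (ha : a ∈ S) (hb : b ∈ S) (hab : a ≠ b) (hc : c ∈ S) : c = a ∨ c = b := by
  by_contra hcon
  push Not at hcon
  have h1 : ({a, b, c} : Finset E) ⊆ S := by
    intro x hx
    simp only [mem_insert, mem_singleton] at hx
    rcases hx with rfl | rfl | rfl
    · exact ha
    · exact hb
    · exact hc
  have h2 := card_le_card h1
  have h3 : ({a, b, c} : Finset E).card = 3 := by
    rw [card_insert_of_notMem, card_insert_of_notMem, card_singleton]
    · simp only [mem_singleton]
      exact fun e => hcon.2 e.symm
    · simp only [mem_insert, mem_singleton, not_or]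
      exact ⟨hab, fun e => hcon.1 e.symm⟩
  omega

/-- A set of `p + q` elements has a subset of `p` elements which contains only elements with the
property `P`, or contains all of them. -/
theorem exists_sorted {E : Type} [DecidableEq E] (F : Finset E) (p : ℕ) (hp : p ≤ F.card)
    (P : E → Prop) [DecidablePred P] :
    ∃ F0 ⊆ F, F0.card = p ∧ ((∃ e ∈ F, e ∉ F0 ∧ P e) → ∀ e ∈ F0, P e) := by
  rcases le_total p (F.filter P).card with h | h
  · obtain ⟨u, -, hu, hc⟩ := exists_subsuperset_card_eq (empty_subset (F.filter P))
      (by rw [card_empty]; exact Nat.zero_le p) h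
    refine ⟨u, hu.trans (filter_subset _ _), hc, fun _ e he => ?_⟩
    exact (mem_filter.mp (hu he)).2
  · obtain ⟨u, hu, hu', hc⟩ := exists_subsuperset_card_eq (filter_subset P F) h hp
    refine ⟨u, hu', hc, ?_⟩
    rintro ⟨e, he, he', hP⟩
    exact absurd (hu (mem_filter.mpr ⟨he, hP⟩)) he'

theorem core {E X Y : Type} [Fintype E] [DecidableEq E] [Fintype X] [DecidableEq X] [Fintype Y]
    [DecidableEq Y] (l : E → X) (r : E → Y) (low : X → Prop)
    (hl : ∀ x, (univ.filter (fun e => l e = x)).card = 2)
    (hr : ∀ y, (univ.filter (fun e => r e = y)).card = 4) :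
    ∃ (pos : E → ℕ) (s : Y → ℕ),
      (∀ y, 1 ≤ s y ∧ s y ≤ 3) ∧
      (∀ e, low (l e) → 1 ≤ pos e ∧ pos e ≤ 4) ∧
      (∀ e, ¬ low (l e) → 3 ≤ pos e ∧ pos e ≤ 6) ∧
      (∀ e e', e ≠ e' → l e = l e' → pos e' = pos e + 1 ∨ pos e = pos e' + 1) ∧
      (∀ e, s (r e) ≤ pos e ∧ pos e ≤ s (r e) + 3) ∧
      (∀ e e', r e = r e' → pos e = pos e' → e = e') := by
  classical
  -- the pairs at the vertices of `Y`
  have hF : ∀ y, ∃ F0 ⊆ univ.filter (fun e => r e = y), F0.card = 2 ∧
      ((∃ e ∈ univ.filter (fun e => r e = y), e ∉ F0 ∧ low (l e)) → ∀ e ∈ F0, low (l e)) :=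
    fun y => exists_sorted _ 2 (by rw [hr]; norm_num) (fun e => low (l e))
  choose F0 hF0 hF0c hF0s using hF
  have hF0r : ∀ y e, e ∈ F0 y → r e = y := fun y e he => (mem_filter.mp (hF0 y he)).2
  set pi : E → Y × Bool := fun e => (r e, decide (e ∈ F0 (r e))) with hpi
  have hpi2 : ∀ b, (univ.filter (fun e => pi e = b)).card = 2 := by
    rintro ⟨y, b⟩
    cases b with
    | true =>
      have e1 : univ.filter (fun e => pi e = (y, true)) = F0 y := by
        ext e
        simp only [hpi, mem_filter, mem_univ, true_and, Prod.mk.injEq, decide_eq_true_eq]
        constructor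
        · rintro ⟨rfl, h⟩
          exact h
        · intro h
          have := hF0r y e h
          subst this
          exact ⟨rfl, h⟩
      rw [e1, hF0c]
    | false =>
      have e1 : univ.filter (fun e => pi e = (y, false)) =
          (univ.filter (fun e => r e = y)) \ F0 y := by
        ext e
        simp only [hpi, mem_filter, mem_univ, true_and, Prod.mk.injEq, decide_eq_false_iff_not,
          mem_sdiff]
        constructor
        · rintro ⟨rfl, h⟩
          exact ⟨rfl, h⟩
        · rintro ⟨rfl, h⟩
          exact ⟨rfl, h⟩
      rw [e1, card_sdiff_of_subset (hF0 y), hr, hF0c]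
  obtain ⟨T, -, hTl, hTp⟩ := exists_matching univ l pi 2 (by norm_num) hl hpi2
  -- the out-ends and the in-ends
  set ka : E → Y × Bool := fun e => (r e, decide (e ∈ T)) with hka
  have hTy : ∀ y, ((univ.filter (fun e => r e = y)).filter (fun e => e ∈ T)).card = 2 := by
    intro y
    have e1 : (univ.filter (fun e => r e = y)).filter (fun e => e ∈ T) =
        (T.filter (fun e => pi e = (y, true))) ∪ (T.filter (fun e => pi e = (y, false))) := by
      ext e
      simp only [hpi, mem_filter, mem_univ, true_and, mem_union, Prod.mk.injEq]
      constructor
      · rintro ⟨h1, h2⟩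
        cases hd : decide (e ∈ F0 (r e)) with
        | true => exact Or.inl ⟨h2, h1, rfl⟩
        | false => exact Or.inr ⟨h2, h1, rfl⟩
      · rintro (⟨h1, h2, -⟩ | ⟨h1, h2, -⟩)
        · exact ⟨h2, h1⟩
        · exact ⟨h2, h1⟩
    rw [e1, card_union_of_disjoint, hTp, hTp]
    rw [disjoint_left]
    intro e he he'
    have h1 := (mem_filter.mp he).2
    have h2 := (mem_filter.mp he').2
    rw [h1] at h2
    simp at h2
  have hka2 : ∀ b, (univ.filter (fun e => ka e = b)).card = 2 := by
    rintro ⟨y, b⟩
    cases b with
    | true =>
      have e1 : univ.filter (fun e => ka e = (y, true)) =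
          (univ.filter (fun e => r e = y)).filter (fun e => e ∈ T) := by
        ext e
        simp only [hka, mem_filter, mem_univ, true_and, Prod.mk.injEq, decide_eq_true_eq]
      rw [e1, hTy]
    | false =>
      have e1 : univ.filter (fun e => ka e = (y, false)) =
          (univ.filter (fun e => r e = y)) \
            ((univ.filter (fun e => r e = y)).filter (fun e => e ∈ T)) := by
        ext e
        simp only [hka, mem_filter, mem_univ, true_and, Prod.mk.injEq, decide_eq_false_iff_not,
          mem_sdiff, not_and]
        constructor
        · rintro ⟨h1, h2⟩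
          exact ⟨h1, fun _ => h2⟩
        · rintro ⟨h1, h2⟩
          exact ⟨h1, h2 h1⟩
      rw [e1, card_sdiff_of_subset (filter_subset _ _), hr, hTy]
  obtain ⟨T', -, hTl', hTp'⟩ := exists_matching univ l ka 2 (by norm_num) hl hka2
  have kaT : ∀ e e', ka e = ka e' → (e ∈ T ↔ e' ∈ T) := by
    intro e e' h
    simp only [hka, Prod.mk.injEq, decide_eq_decide] at h
    exact h.2
  have kar : ∀ e e', ka e = ka e' → r e = r e' := by
    intro e e' h
    simp only [hka, Prod.mk.injEq] at h
    exact h.1
  have kamk : ∀ e e', r e = r e' → (e ∈ T ↔ e' ∈ T) → ka e = ka e' := by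
    intro e e' h1 h2
    simp only [hka, Prod.mk.injEq, decide_eq_decide]
    exact ⟨h1, h2⟩
  set bad : E → Prop := fun e => e ∈ T' ∧ ∀ e', ka e' = ka e → (low (l e') ↔ low (l e)) with hbad
  -- exactly one of the two edges at a vertex of `X` is in `T`, and the same for `T'`
  have hx2 : ∀ (U : Finset E), (∀ x, (U.filter (fun e => l e = x)).card = 1) →
      ∀ e e', e ≠ e' → l e = l e' → (e ∈ U ↔ e' ∉ U) := by
    intro U hU e e' hne hle
    constructor
    · intro h h'
      exact hne (eq_of_card_one (hU (l e)) h h' rfl hle.symm)
    · intro h
      by_contra hcon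
      obtain ⟨x, hx⟩ := card_eq_one.mp (hU (l e))
      have hxm : x ∈ U.filter (fun e'' => l e'' = l e) := by rw [hx]; exact mem_singleton_self x
      have hxU := (mem_filter.mp hxm).1
      have hxl := (mem_filter.mp hxm).2
      have h3 : x = e ∨ x = e' := two_fiber (hl (l e)) (mem_filter.mpr ⟨mem_univ _, rfl⟩)
        (mem_filter.mpr ⟨mem_univ _, hle.symm⟩) hne (mem_filter.mpr ⟨mem_univ _, hxl⟩)
      rcases h3 with rfl | rfl
      · exact hcon hxU
      · exact h hxU
  set pos : E → ℕ := fun e =>
    if e ∈ T then (if low (l e) then (if bad e then 1 else 3) else (if bad e then 3 else 5))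
    else (if low (l e) then (if bad e then 4 else 2) else (if bad e then 6 else 4)) with hpos
  set s : Y → ℕ := fun y => if ∀ e, r e = y → e ∈ T → low (l e) then 1
    else if ∀ e, r e = y → e ∉ T → ¬ low (l e) then 3 else 2 with hs
  -- if all out-ends at `y` are low then not all in-ends are high
  have hkey : ∀ y, (∀ e, r e = y → e ∈ T → low (l e)) → ¬ ∀ e, r e = y → e ∉ T → ¬ low (l e) := by
    intro y h1 h2
    -- the out-end in the second pair
    obtain ⟨x, hx⟩ := card_eq_one.mp (hTp (y, false))
    have hxm : x ∈ T.filter (fun e => pi e = (y, false)) := by rw [hx]; exact mem_singleton_self x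
    have hxT := (mem_filter.mp hxm).1
    have hxp := (mem_filter.mp hxm).2
    simp only [hpi, Prod.mk.injEq, decide_eq_false_iff_not] at hxp
    have hxr := hxp.1
    have hxF : x ∉ F0 y := by rw [← hxr]; exact hxp.2
    have hall := hF0s y ⟨x, mem_filter.mpr ⟨mem_univ _, hxr⟩, hxF, h1 x hxr hxT⟩
    -- the in-end in the first pair
    have hin : ∃ e ∈ F0 y, e ∉ T := by
      by_contra hcon
      push Not at hcon
      have hsub : F0 y ⊆ T.filter (fun e => pi e = (y, true)) := by
        intro e he
        have her := hF0r y e he
        refine mem_filter.mpr ⟨hcon e he, ?_⟩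
        simp only [hpi, Prod.mk.injEq, decide_eq_true_eq]
        exact ⟨her, by rw [her]; exact he⟩
      have := card_le_card hsub
      rw [hF0c, hTp] at this
      omega
    obtain ⟨e, heF, heT⟩ := hin
    exact h2 e (hF0r y e heF) heT (hall e heF)
  have hbadT : ∀ e, bad e → e ∈ T' := fun e h => h.1
  refine ⟨pos, s, ?_, ?_, ?_, ?_, ?_, ?_⟩
  · intro y
    simp only [hs]
    split_ifs <;> omega
  · intro e he
    simp only [hpos, if_pos he]
    split_ifs <;> omega
  · intro e he
    simp only [hpos, if_neg he]
    split_ifs <;> omega
  · intro e e' hne hle
    have hT1 := hx2 T hTl e e' hne hle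
    have hT2 := hx2 T' hTl' e e' hne hle
    have hnb : ¬ (bad e ∧ bad e') := by
      rintro ⟨h1, h2⟩
      exact (hT2.mp (hbadT e h1)) (hbadT e' h2)
    have hlow : low (l e) ↔ low (l e') := by rw [hle]
    simp only [hpos]
    by_cases h1 : e ∈ T
    · have h2 := hT1.mp h1
      simp only [if_pos h1, if_neg h2]
      by_cases h3 : low (l e)
      · have h3' := hlow.mp h3
        simp only [if_pos h3, if_pos h3']
        by_cases h4 : bad e
        · have h5 : ¬ bad e' := fun h => hnb ⟨h4, h⟩
          simp only [if_pos h4, if_neg h5]
          norm_num
        · simp only [if_neg h4]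
          split_ifs <;> omega
      · have h3' : ¬ low (l e') := fun h => h3 (hlow.mpr h)
        simp only [if_neg h3, if_neg h3']
        by_cases h4 : bad e
        · have h5 : ¬ bad e' := fun h => hnb ⟨h4, h⟩
          simp only [if_pos h4, if_neg h5]
          norm_num
        · simp only [if_neg h4]
          split_ifs <;> omega
    · have h2 : e' ∈ T := by
        by_contra h
        exact h1 (hT1.mpr h)
      simp only [if_neg h1, if_pos h2]
      by_cases h3 : low (l e)
      · have h3' := hlow.mp h3
        simp only [if_pos h3, if_pos h3']
        by_cases h4 : bad e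
        · have h5 : ¬ bad e' := fun h => hnb ⟨h4, h⟩
          simp only [if_pos h4, if_neg h5]
          norm_num
        · simp only [if_neg h4]
          split_ifs <;> omega
      · have h3' : ¬ low (l e') := fun h => h3 (hlow.mpr h)
        simp only [if_neg h3, if_neg h3']
        by_cases h4 : bad e
        · have h5 : ¬ bad e' := fun h => hnb ⟨h4, h⟩
          simp only [if_pos h4, if_neg h5]
          norm_num
        · simp only [if_neg h4]
          split_ifs <;> omega
  · intro e
    by_cases hA : ∀ e', r e' = r e → e' ∈ T → low (l e')
    · have hB := hkey (r e) hA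
      have hsv : s (r e) = 1 := by simp only [hs, if_pos hA]
      rw [hsv]
      simp only [hpos]
      by_cases h1 : e ∈ T
      · simp only [if_pos h1, if_pos (hA e rfl h1)]
        split_ifs <;> omega
      · simp only [if_neg h1]
        by_cases h3 : low (l e)
        · simp only [if_pos h3]
          split_ifs <;> omega
        · have h4 : ¬ bad e := by
            intro hb
            apply hB
            intro e' he' heT hlo
            exact h3 ((hb.2 e' (kamk e' e he' (iff_of_false heT h1))).mp hlo)
          simp only [if_neg h3, if_neg h4]
          omega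
    · by_cases hC : ∀ e', r e' = r e → e' ∉ T → ¬ low (l e')
      · have hsv : s (r e) = 3 := by simp only [hs, if_neg hA, if_pos hC]
        rw [hsv]
        simp only [hpos]
        by_cases h1 : e ∈ T
        · simp only [if_pos h1]
          by_cases h3 : low (l e)
          · have h4 : ¬ bad e := by
              intro hb
              apply hA
              intro e' he' heT
              exact (hb.2 e' (kamk e' e he' (iff_of_true heT h1))).mpr h3
            simp only [if_pos h3, if_neg h4]
            omega
          · simp only [if_neg h3]
            split_ifs <;> omega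
        · simp only [if_neg h1, if_neg (hC e rfl h1)]
          split_ifs <;> omega
      · have hsv : s (r e) = 2 := by simp only [hs, if_neg hA, if_neg hC]
        rw [hsv]
        simp only [hpos]
        by_cases h1 : e ∈ T
        · simp only [if_pos h1]
          by_cases h3 : low (l e)
          · have h4 : ¬ bad e := by
              intro hb
              apply hA
              intro e' he' heT
              exact (hb.2 e' (kamk e' e he' (iff_of_true heT h1))).mpr h3
            simp only [if_pos h3, if_neg h4]
            omega
          · simp only [if_neg h3]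
            split_ifs <;> omega
        · simp only [if_neg h1]
          by_cases h3 : low (l e)
          · simp only [if_pos h3]
            split_ifs <;> omega
          · have h4 : ¬ bad e := by
              intro hb
              apply hC
              intro e' he' heT hlo
              exact h3 ((hb.2 e' (kamk e' e he' (iff_of_false heT h1))).mp hlo)
            simp only [if_neg h3, if_neg h4]
            omega
  · intro e e' hre hp
    by_contra hne
    have hTT : e ∈ T ↔ e' ∈ T := by
      by_contra hcon
      simp only [hpos] at hp
      by_cases h1 : e ∈ T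
      · have h2 : e' ∉ T := fun h => hcon ⟨fun _ => h, fun _ => h1⟩
        simp only [if_pos h1, if_neg h2] at hp
        split_ifs at hp <;> omega
      · have h2 : e' ∈ T := by
          by_contra h
          exact hcon ⟨fun h' => absurd h' h1, fun h' => absurd h' h⟩
        simp only [if_neg h1, if_pos h2] at hp
        split_ifs at hp <;> omega
    have hk := kamk e e' hre hTT
    -- the block has exactly the elements `e`, `e'`
    have hblock : ∀ e'', ka e'' = ka e → e'' = e ∨ e'' = e' := fun e'' h =>
      two_fiber (hka2 (ka e)) (mem_filter.mpr ⟨mem_univ _, rfl⟩)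
        (mem_filter.mpr ⟨mem_univ _, hk.symm⟩) hne (mem_filter.mpr ⟨mem_univ _, h⟩)
    by_cases hm : low (l e) ↔ low (l e')
    · have hb1 : bad e ↔ e ∈ T' := by
        constructor
        · exact fun h => h.1
        · intro h
          refine ⟨h, fun e'' h'' => ?_⟩
          rcases hblock e'' h'' with rfl | rfl
          · exact Iff.rfl
          · exact hm.symm
      have hb2 : bad e' ↔ e' ∈ T' := by
        constructor
        · exact fun h => h.1
        · intro h
          refine ⟨h, fun e'' h'' => ?_⟩
          rcases hblock e'' (h''.trans hk.symm) with rfl | rfl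
          · exact hm
          · exact Iff.rfl
      have hone : ¬ (e ∈ T' ↔ e' ∈ T') := by
        intro hiff
        obtain ⟨x, hx⟩ := card_eq_one.mp (hTp' (ka e))
        have hxm : x ∈ T'.filter (fun e'' => ka e'' = ka e) := by
          rw [hx]; exact mem_singleton_self x
        have hxT := (mem_filter.mp hxm).1
        rcases hblock x (mem_filter.mp hxm).2 with rfl | rfl
        · exact hne (eq_of_card_one (hTp' (ka x)) hxT (hiff.mp hxT) rfl hk.symm)
        · exact hne (eq_of_card_one (hTp' (ka e)) (hiff.mpr hxT) hxT rfl hk.symm)
      rw [← hb1, ← hb2] at hone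
      simp only [hpos] at hp
      by_cases h1 : e ∈ T
      · have h2 := hTT.mp h1
        simp only [if_pos h1, if_pos h2] at hp
        by_cases h3 : low (l e)
        · have h3' := hm.mp h3
          simp only [if_pos h3, if_pos h3'] at hp
          by_cases h4 : bad e
          · have h5 : ¬ bad e' := fun h => hone (iff_of_true h4 h)
            simp only [if_pos h4, if_neg h5] at hp
            omega
          · have h5 : bad e' := by
              by_contra h
              exact hone (iff_of_false h4 h)
            simp only [if_neg h4, if_pos h5] at hp
            omega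
        · have h3' : ¬ low (l e') := fun h => h3 (hm.mpr h)
          simp only [if_neg h3, if_neg h3'] at hp
          by_cases h4 : bad e
          · have h5 : ¬ bad e' := fun h => hone (iff_of_true h4 h)
            simp only [if_pos h4, if_neg h5] at hp
            omega
          · have h5 : bad e' := by
              by_contra h
              exact hone (iff_of_false h4 h)
            simp only [if_neg h4, if_pos h5] at hp
            omega
      · have h2 : e' ∉ T := fun h => h1 (hTT.mpr h)
        simp only [if_neg h1, if_neg h2] at hp
        by_cases h3 : low (l e)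
        · have h3' := hm.mp h3
          simp only [if_pos h3, if_pos h3'] at hp
          by_cases h4 : bad e
          · have h5 : ¬ bad e' := fun h => hone (iff_of_true h4 h)
            simp only [if_pos h4, if_neg h5] at hp
            omega
          · have h5 : bad e' := by
              by_contra h
              exact hone (iff_of_false h4 h)
            simp only [if_neg h4, if_pos h5] at hp
            omega
        · have h3' : ¬ low (l e') := fun h => h3 (hm.mpr h)
          simp only [if_neg h3, if_neg h3'] at hp
          by_cases h4 : bad e
          · have h5 : ¬ bad e' := fun h => hone (iff_of_true h4 h)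
            simp only [if_pos h4, if_neg h5] at hp
            omega
          · have h5 : bad e' := by
              by_contra h
              exact hone (iff_of_false h4 h)
            simp only [if_neg h4, if_pos h5] at hp
            omega
    · have hb1 : ¬ bad e := fun h => hm ((h.2 e' hk.symm)).symm
      have hb2 : ¬ bad e' := fun h => hm (h.2 e hk)
      simp only [hpos, if_neg hb1, if_neg hb2] at hp
      by_cases h1 : e ∈ T
      · have h2 := hTT.mp h1
        simp only [if_pos h1, if_pos h2] at hp
        by_cases h3 : low (l e)
        · have h3' : ¬ low (l e') := fun h => hm (iff_of_true h3 h)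
          simp only [if_pos h3, if_neg h3'] at hp
          omega
        · have h3' : low (l e') := by
            by_contra h
            exact hm (iff_of_false h3 h)
          simp only [if_neg h3, if_pos h3'] at hp
          omega
      · have h2 : e' ∉ T := fun h => h1 (hTT.mpr h)
        simp only [if_neg h1, if_neg h2] at hp
        by_cases h3 : low (l e)
        · have h3' : ¬ low (l e') := fun h => hm (iff_of_true h3 h)
          simp only [if_pos h3, if_neg h3'] at hp
          omega
        · have h3' : low (l e') := by
            by_contra h
            exact hm (iff_of_false h3 h)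
          simp only [if_neg h3, if_pos h3'] at hp
          omega

end Pool.Agent.H67.IC
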