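import Pool.Agent.H67.IC.Conv

/-!
# Consecutive colourings of (a, 2a)-biregular graphs: simple graphs
-/

set_option autoImplicit false

namespace Pool.Agent.H67.IC

open Finset

open Classical in
theorem graph_colouring {V : Type} [Fintype V] (G : SimpleGraph V) (X : Set V) (h : ℕ)
    (hX : ∀ u v : V, G.Adj u v → (u ∈ X ↔ v ∉ X))
    (dX : ∀ v : V, v ∈ X → (G.neighborSet v).ncard = h + 2)
    (dY : ∀ v : V, v ∉ X → (G.neighborSet v).ncard = 2 * h + 4)
    (hc : ∃ (H : {v : V // v ∈ X} → {v : V // v ∉ X} → Prop) (low : {v : V // v ∈ X} → Prop),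
      (∀ x y, H x y → G.Adj (x : V) (y : V)) ∧
      (∀ x, (univ.filter (fun y => H x y)).card = h) ∧
      (∀ y, (univ.filter (fun x => H x y ∧ low x)).card = h) ∧
      (∀ y, (univ.filter (fun x => H x y ∧ ¬ low x)).card = h)) :
    ∃ c : V → V → ℕ,
      (∀ v w : V, G.Adj v w → c v w = c w v) ∧
      (∀ v w : V, G.Adj v w → 0 < c v w ∧ c v w ≤ 2 * h + 6) ∧
      (∀ v w w' : V, G.Adj v w → G.Adj v w' → c v w = c v w' → w = w') ∧
      (∀ v w w' : V, ∀ k : ℕ, G.Adj v w → G.Adj v w' → c v w ≤ k → k ≤ c v w' →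
        ∃ u : V, G.Adj v u ∧ c v u = k) := by
  obtain ⟨H, low, hH, hHX, hHl, hHh⟩ := hc
  obtain ⟨adj, hadj⟩ : ∃ adj : {v : V // v ∈ X} → {v : V // v ∉ X} → Prop,
      ∀ x y, adj x y ↔ G.Adj (x : V) (y : V) := ⟨_, fun _ _ => Iff.rfl⟩
  obtain ⟨c0, k1, k2, k3, k4, k5⟩ := main_abs h adj H (fun x y hxy => (hadj x y).mpr (hH x y hxy))
    low
    (fun x => by
      rw [card_of_ncard (fun v => v ∉ X) (G.neighborSet x)
        (fun v hv => (hX x v hv).mp x.2) (fun y => adj x y) (fun y => hadj x y)]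
      exact dX x x.2)
    hHX
    (fun y => by
      rw [card_of_ncard (fun v => v ∈ X) (G.neighborSet y)
        (fun v hv => (hX v y (G.adj_symm hv)).mpr y.2) (fun x => adj x y)
        (fun x => (hadj x y).trans (G.adj_comm _ _))]
      exact dY y y.2)
    hHl hHh
  obtain ⟨c, hc1, hc2⟩ : ∃ c : V → V → ℕ,
      (∀ x y (hx : x ∈ X) (hy : y ∉ X), c x y = c0 ⟨x, hx⟩ ⟨y, hy⟩) ∧
      (∀ x y (hx : x ∈ X) (hy : y ∉ X), c y x = c0 ⟨x, hx⟩ ⟨y, hy⟩) := by
    refine ⟨fun v w => if hv : v ∈ X then (if hw : w ∉ X then c0 ⟨v, hv⟩ ⟨w, hw⟩ else 0)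
      else (if hw : w ∈ X then c0 ⟨w, hw⟩ ⟨v, hv⟩ else 0), ?_, ?_⟩
    · intro x y hx hy
      simp only [dif_pos hx, dif_pos hy]
    · intro x y hx hy
      simp only [dif_neg hy, dif_pos hx]
  have hsymm : ∀ v w : V, G.Adj v w → c v w = c w v := by
    intro v w hvw
    by_cases hv : v ∈ X
    · have hw := (hX v w hvw).mp hv
      rw [hc1 v w hv hw, hc2 v w hv hw]
    · have hw : w ∈ X := (hX w v hvw.symm).mpr hv
      rw [hc2 w v hw hv, hc1 w v hw hv]
  have hinj : ∀ v w w' : V, G.Adj v w → G.Adj v w' → c v w = c v w' → w = w' := by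
    intro v w w' hw hw' heq
    by_cases hv : v ∈ X
    · have h1 := (hX v w hw).mp hv
      have h2 := (hX v w' hw').mp hv
      rw [hc1 v w hv h1, hc1 v w' hv h2] at heq
      exact congrArg Subtype.val
        (k3 ⟨v, hv⟩ ⟨w, h1⟩ ⟨w', h2⟩ ((hadj _ _).mpr hw) ((hadj _ _).mpr hw') heq)
    · have h1 : w ∈ X := (hX w v hw.symm).mpr hv
      have h2 : w' ∈ X := (hX w' v hw'.symm).mpr hv
      rw [hc2 w v h1 hv, hc2 w' v h2 hv] at heq
      exact congrArg Subtype.val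
        (k5 ⟨v, hv⟩ ⟨w, h1⟩ ⟨w', h2⟩ ((hadj _ _).mpr hw.symm) ((hadj _ _).mpr hw'.symm) heq)
  have hwin : ∀ v : V, ∃ p, ∀ w, G.Adj v w → p ≤ c v w ∧ c v w < p + (G.neighborSet v).ncard := by
    intro v
    by_cases hv : v ∈ X
    · obtain ⟨p, hp⟩ := k2 ⟨v, hv⟩
      refine ⟨p, fun w hw => ?_⟩
      have h1 := (hX v w hw).mp hv
      rw [hc1 v w hv h1, dX v hv]
      exact hp ⟨w, h1⟩ ((hadj _ _).mpr hw)
    · obtain ⟨p, hp⟩ := k4 ⟨v, hv⟩
      refine ⟨p, fun w hw => ?_⟩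
      have h1 : w ∈ X := (hX w v hw.symm).mpr hv
      rw [hc2 w v h1 hv, dY v hv]
      exact hp ⟨w, h1⟩ ((hadj _ _).mpr hw.symm)
  refine ⟨c, hsymm, ?_, hinj, ?_⟩
  · intro v w hvw
    by_cases hv : v ∈ X
    · have hw := (hX v w hvw).mp hv
      rw [hc1 v w hv hw]
      exact k1 _ _ ((hadj _ _).mpr hvw)
    · have hw : w ∈ X := (hX w v hvw.symm).mpr hv
      rw [hc2 w v hw hv]
      exact k1 _ _ ((hadj _ _).mpr hvw.symm)
  · intro v w w' k hw hw' hk1 hk2
    obtain ⟨p, hp⟩ := hwin v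
    obtain ⟨u, hu, hfu⟩ := window (G.neighborSet v) (c v) p
      (fun a ha b hb hab => hinj v a b ha hb hab) (fun a ha => hp a ha) k
      (le_trans (hp w hw).1 hk1) (lt_of_le_of_lt hk2 (hp w' hw').2)
    exact ⟨u, hu, hfu⟩

open Classical in
theorem two_to_one (V : Type) [Fintype V] (G : SimpleGraph V) (X : Set V) (a : ℕ) (ha : 2 ≤ a)
    (hX : ∀ u v : V, G.Adj u v → (u ∈ X ↔ v ∉ X))
    (dX : ∀ v : V, v ∈ X → (G.neighborSet v).ncard = a)
    (dY : ∀ v : V, v ∉ X → (G.neighborSet v).ncard = 2 * a)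
    (hc : a ≤ 4 ∨ ∃ (L : Set V) (H : SimpleGraph V), H ≤ G ∧
      (∀ v ∈ X, (H.neighborSet v).ncard = a - 2) ∧
      ∀ v ∉ X, (H.neighborSet v ∩ L).ncard = a - 2 ∧ (H.neighborSet v \ L).ncard = a - 2) :
    ∃ c : V → V → ℕ,
      (∀ v w : V, G.Adj v w → c v w = c w v) ∧
      (∀ v w : V, G.Adj v w → 0 < c v w ∧ c v w ≤ 2 * a + 2) ∧
      (∀ v w w' : V, G.Adj v w → G.Adj v w' → c v w = c v w' → w = w') ∧
      (∀ v w w' : V, ∀ k : ℕ, G.Adj v w → G.Adj v w' → c v w ≤ k → k ≤ c v w' →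
        ∃ u : V, G.Adj v u ∧ c v u = k) := by
  obtain ⟨h, rfl⟩ : ∃ h, a = h + 2 := ⟨a - 2, by omega⟩
  have e1 : 2 * (h + 2) = 2 * h + 4 := by ring
  have e2 : 2 * (h + 2) + 2 = 2 * h + 6 := by ring
  rw [e2]
  rw [e1] at dY
  refine graph_colouring G X h hX dX dY ?_
  -- the degrees as cardinalities of filters
  obtain ⟨adj, hadj⟩ : ∃ adj : {v : V // v ∈ X} → {v : V // v ∉ X} → Prop,
      ∀ x y, adj x y ↔ G.Adj (x : V) (y : V) := ⟨_, fun _ _ => Iff.rfl⟩
  have dX' : ∀ x, (univ.filter (fun y => adj x y)).card = h + 2 := by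
    intro x
    rw [card_of_ncard (fun v => v ∉ X) (G.neighborSet x)
        (fun v hv => (hX x v hv).mp x.2) (fun y => adj x y) (fun y => hadj x y)]
    exact dX x x.2
  have dY' : ∀ y, (univ.filter (fun x => adj x y)).card = 2 * h + 4 := by
    intro y
    rw [card_of_ncard (fun v => v ∈ X) (G.neighborSet y)
        (fun v hv => (hX v y (G.adj_symm hv)).mpr y.2) (fun x => adj x y)
        (fun x => (hadj x y).trans (G.adj_comm _ _))]
    exact dY y y.2
  rcases hc with h4 | ⟨L, H, hHG, hHX, hHY⟩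
  · have hh : h = 0 ∨ h = 1 ∨ h = 2 := by omega
    rcases hh with rfl | rfl | rfl
    · refine ⟨fun _ _ => False, fun _ => True, fun x y hxy => hxy.elim, ?_, ?_, ?_⟩
      · intro x
        rw [card_eq_zero]
        ext y
        simp only [mem_filter, mem_univ, true_and, notMem_empty]
      · intro x
        rw [card_eq_zero]
        ext y
        simp only [mem_filter, mem_univ, true_and, notMem_empty, false_and]
      · intro x
        rw [card_eq_zero]
        ext y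
        simp only [mem_filter, mem_univ, true_and, notMem_empty, false_and]
    · obtain ⟨H, low, h1, h2, h3, h4⟩ := split3 adj dX' dY'
      exact ⟨H, low, fun x y hxy => (hadj x y).mp (h1 x y hxy), h2, h3, h4⟩
    · obtain ⟨H, low, h1, h2, h3, h4⟩ := split4 adj dX' dY'
      exact ⟨H, low, fun x y hxy => (hadj x y).mp (h1 x y hxy), h2, h3, h4⟩
  · have e3 : h + 2 - 2 = h := by omega
    rw [e3] at hHX hHY
    obtain ⟨H', hH'⟩ : ∃ H' : {v : V // v ∈ X} → {v : V // v ∉ X} → Prop,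
      ∀ x y, H' x y ↔ H.Adj (x : V) (y : V) := ⟨_, fun _ _ => Iff.rfl⟩
    obtain ⟨low, hlow⟩ : ∃ low : {v : V // v ∈ X} → Prop, ∀ x, low x ↔ (x : V) ∈ L :=
      ⟨_, fun _ => Iff.rfl⟩
    refine ⟨H', low, fun x y hxy => hHG ((hH' x y).mp hxy), ?_, ?_, ?_⟩
    · intro x
      rw [card_of_ncard (fun v => v ∉ X) (H.neighborSet x)
        (fun v hv => (hX x v (hHG hv)).mp x.2) (fun y => H' x y) (fun y => hH' x y)]
      exact hHX x x.2
    · intro y
      rw [card_of_ncard (fun v => v ∈ X) (H.neighborSet y ∩ L)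
        (fun v hv => (hX v y (hHG (H.adj_symm hv.1))).mpr y.2) (fun x => H' x y ∧ low x)
        (fun x => by
          rw [hH', hlow, H.adj_comm]
          exact Iff.rfl)]
      exact (hHY y y.2).1
    · intro y
      rw [card_of_ncard (fun v => v ∈ X) (H.neighborSet y \ L)
        (fun v hv => (hX v y (hHG (H.adj_symm hv.1))).mpr y.2) (fun x => H' x y ∧ ¬ low x)
        (fun x => by
          rw [hH', hlow, H.adj_comm]
          exact Iff.rfl)]
      exact (hHY y y.2).2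

end Pool.Agent.H67.IC
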