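import Pool.Agent.H67.IC.Core

/-!
# Consecutive colourings of (a, 2a)-biregular graphs: assembly

`h = a - 2`. Low vertices of `X` use the colours `3, …, h + 2` on the factor `H`, high vertices use
`h + 5, …, 2 h + 4`; the other edges get the colours `1, 2, h + 3, h + 4, 2 h + 5, 2 h + 6`.
-/

set_option autoImplicit false

namespace Pool.Agent.H67.IC

open Finset

/-- The colour of a position. -/
def gg (h p : ℕ) : ℕ := if p ≤ 2 then p else if p ≤ 4 then p + h else p + 2 * h

open Classical in
theorem main_abs {X Y : Type} [Fintype X] [Fintype Y] (h : ℕ) (adj H : X → Y → Prop)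
    (hH : ∀ x y, H x y → adj x y) (low : X → Prop)
    (dX : ∀ x, (univ.filter (fun y => adj x y)).card = h + 2)
    (dXH : ∀ x, (univ.filter (fun y => H x y)).card = h)
    (dY : ∀ y, (univ.filter (fun x => adj x y)).card = 2 * h + 4)
    (dYl : ∀ y, (univ.filter (fun x => H x y ∧ low x)).card = h)
    (dYh : ∀ y, (univ.filter (fun x => H x y ∧ ¬ low x)).card = h) :
    ∃ c : X → Y → ℕ,
      (∀ x y, adj x y → 1 ≤ c x y ∧ c x y ≤ 2 * h + 6) ∧
      (∀ x, ∃ p, ∀ y, adj x y → p ≤ c x y ∧ c x y < p + (h + 2)) ∧
      (∀ x y y', adj x y → adj x y' → c x y = c x y' → y = y') ∧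
      (∀ y, ∃ p, ∀ x, adj x y → p ≤ c x y ∧ c x y < p + (2 * h + 4)) ∧
      (∀ y x x', adj x y → adj x' y → c x y = c x' y → x = x') := by
  -- the edges outside `H`
  let E : Type := {e : X × Y // adj e.1 e.2 ∧ ¬ H e.1 e.2}
  let l : E → X := fun e => e.1.1
  let r : E → Y := fun e => e.1.2
  have hl : ∀ x, (univ.filter (fun e : E => l e = x)).card = 2 := by
    intro x
    have h1 : (univ.filter (fun e : E => l e = x)).card =
        (univ.filter (fun y => adj x y ∧ ¬ H x y)).card := by
      refine card_bij (fun e _ => e.1.2) ?_ ?_ ?_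
      · intro e he
        have h2 := (mem_filter.mp he).2
        have h3 := e.2
        refine mem_filter.mpr ⟨mem_univ _, ?_⟩
        rw [← h2]
        exact h3
      · intro e he e' he' hh
        have h2 := (mem_filter.mp he).2
        have h3 := (mem_filter.mp he').2
        exact Subtype.ext (Prod.ext (h2.trans h3.symm) hh)
      · intro y hy
        exact ⟨⟨(x, y), (mem_filter.mp hy).2⟩, mem_filter.mpr ⟨mem_univ _, rfl⟩, rfl⟩
    have h2 : univ.filter (fun y => adj x y ∧ ¬ H x y) =
        (univ.filter (fun y => adj x y)) \ (univ.filter (fun y => H x y)) := by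
      ext y
      simp only [mem_filter, mem_univ, true_and, mem_sdiff]
    rw [h1, h2, card_sdiff_of_subset, dX, dXH]
    · omega
    · intro y hy
      exact mem_filter.mpr ⟨mem_univ _, hH _ _ (mem_filter.mp hy).2⟩
  have hr : ∀ y, (univ.filter (fun e : E => r e = y)).card = 4 := by
    intro y
    have h1 : (univ.filter (fun e : E => r e = y)).card =
        (univ.filter (fun x => adj x y ∧ ¬ H x y)).card := by
      refine card_bij (fun e _ => e.1.1) ?_ ?_ ?_
      · intro e he
        have h2 := (mem_filter.mp he).2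
        have h3 := e.2
        refine mem_filter.mpr ⟨mem_univ _, ?_⟩
        rw [← h2]
        exact h3
      · intro e he e' he' hh
        have h2 := (mem_filter.mp he).2
        have h3 := (mem_filter.mp he').2
        exact Subtype.ext (Prod.ext hh (h2.trans h3.symm))
      · intro x hx
        exact ⟨⟨(x, y), (mem_filter.mp hx).2⟩, mem_filter.mpr ⟨mem_univ _, rfl⟩, rfl⟩
    have h2 : univ.filter (fun x => adj x y ∧ ¬ H x y) =
        (univ.filter (fun x => adj x y)) \ ((univ.filter (fun x => H x y ∧ low x)) ∪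
          (univ.filter (fun x => H x y ∧ ¬ low x))) := by
      ext x
      simp only [mem_filter, mem_univ, true_and, mem_sdiff, mem_union]
      tauto
    rw [h1, h2, card_sdiff_of_subset, card_union_of_disjoint, dY, dYl, dYh]
    · omega
    · rw [disjoint_left]
      intro x hx hx'
      exact (mem_filter.mp hx').2.2 (mem_filter.mp hx).2.2
    · intro x hx
      rcases mem_union.mp hx with hx | hx
      · exact mem_filter.mpr ⟨mem_univ _, hH _ _ (mem_filter.mp hx).2.1⟩
      · exact mem_filter.mpr ⟨mem_univ _, hH _ _ (mem_filter.mp hx).2.1⟩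
  obtain ⟨pos, s, hs, hplow, hphigh, hpx, hpy, hpinj⟩ := core l r low hl hr
  -- the colouring of `H`
  let S : Finset (X × Y) := univ.filter (fun e => H e.1 e.2)
  have hSl : ∀ x, (S.filter (fun e => e.1 = x)).card = h := by
    intro x
    rw [← dXH x]
    refine card_bij (fun e _ => e.2) ?_ ?_ ?_
    · intro e he
      obtain ⟨h1, h2⟩ := mem_filter.mp he
      have h3 := (mem_filter.mp h1).2
      rw [h2] at h3
      exact mem_filter.mpr ⟨mem_univ _, h3⟩
    · intro e he e' he' hh
      exact Prod.ext ((mem_filter.mp he).2.trans (mem_filter.mp he').2.symm) hh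
    · intro y hy
      exact ⟨(x, y), mem_filter.mpr ⟨mem_filter.mpr ⟨mem_univ _, (mem_filter.mp hy).2⟩, rfl⟩, rfl⟩
  have hSr : ∀ b : Y × Bool, (S.filter (fun e => (e.2, decide (low e.1)) = b)).card = h := by
    rintro ⟨y, b⟩
    cases b with
    | true =>
      rw [← dYl y]
      refine card_bij (fun e _ => e.1) ?_ ?_ ?_
      · intro e he
        obtain ⟨h1, h2⟩ := mem_filter.mp he
        have h3 := (mem_filter.mp h1).2
        simp only [Prod.mk.injEq, decide_eq_true_eq] at h2
        rw [h2.1] at h3
        exact mem_filter.mpr ⟨mem_univ _, h3, h2.2⟩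
      · intro e he e' he' hh
        have h1 := (mem_filter.mp he).2
        have h2 := (mem_filter.mp he').2
        simp only [Prod.mk.injEq, decide_eq_true_eq] at h1 h2
        exact Prod.ext hh (h1.1.trans h2.1.symm)
      · intro x hx
        have hx2 := (mem_filter.mp hx).2
        refine ⟨(x, y), mem_filter.mpr ⟨mem_filter.mpr ⟨mem_univ _, hx2.1⟩, ?_⟩, rfl⟩
        simp only [Prod.mk.injEq, decide_eq_true_eq, true_and]
        exact hx2.2
    | false =>
      rw [← dYh y]
      refine card_bij (fun e _ => e.1) ?_ ?_ ?_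
      · intro e he
        obtain ⟨h1, h2⟩ := mem_filter.mp he
        have h3 := (mem_filter.mp h1).2
        simp only [Prod.mk.injEq, decide_eq_false_iff_not] at h2
        rw [h2.1] at h3
        exact mem_filter.mpr ⟨mem_univ _, h3, h2.2⟩
      · intro e he e' he' hh
        have h1 := (mem_filter.mp he).2
        have h2 := (mem_filter.mp he').2
        simp only [Prod.mk.injEq, decide_eq_false_iff_not] at h1 h2
        exact Prod.ext hh (h1.1.trans h2.1.symm)
      · intro x hx
        have hx2 := (mem_filter.mp hx).2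
        refine ⟨(x, y), mem_filter.mpr ⟨mem_filter.mpr ⟨mem_univ _, hx2.1⟩, ?_⟩, rfl⟩
        simp only [Prod.mk.injEq, decide_eq_false_iff_not, true_and]
        exact hx2.2
  obtain ⟨hc, hc1, hc2, hc3⟩ := exists_colouring h S (fun e => e.1)
    (fun e => (e.2, decide (low e.1))) hSl hSr
  have hHc : ∀ x y, H x y → hc (x, y) < h := fun x y hxy =>
    hc1 (x, y) (mem_filter.mpr ⟨mem_univ _, hxy⟩)
  set c : X → Y → ℕ := fun x y => if hM : adj x y ∧ ¬ H x y then gg h (pos ⟨(x, y), hM⟩)
    else if low x then hc (x, y) + 3 else hc (x, y) + h + 5 with hcdef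
  -- the two kinds of edges
  have cM : ∀ x y (hM : adj x y ∧ ¬ H x y), c x y = gg h (pos ⟨(x, y), hM⟩) := by
    intro x y hM
    simp only [hcdef, dif_pos hM]
  have cHl : ∀ x y, H x y → low x → c x y = hc (x, y) + 3 := by
    intro x y hxy hx
    have hM : ¬ (adj x y ∧ ¬ H x y) := fun h' => h'.2 hxy
    simp only [hcdef, dif_neg hM, if_pos hx]
  have cHh : ∀ x y, H x y → ¬ low x → c x y = hc (x, y) + h + 5 := by
    intro x y hxy hx
    have hM : ¬ (adj x y ∧ ¬ H x y) := fun h' => h'.2 hxy
    simp only [hcdef, dif_neg hM, if_neg hx]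
  have posb : ∀ e : E, 1 ≤ pos e ∧ pos e ≤ 6 := by
    intro e
    by_cases h1 : low (l e)
    · have := hplow e h1
      omega
    · have := hphigh e h1
      omega
  -- the colours are in the blocks
  have blM : ∀ x y (hM : adj x y ∧ ¬ H x y), c x y = 1 ∨ c x y = 2 ∨ c x y = h + 3 ∨
      c x y = h + 4 ∨ c x y = 2 * h + 5 ∨ c x y = 2 * h + 6 := by
    intro x y hM
    rw [cM x y hM]
    have := posb ⟨(x, y), hM⟩
    unfold gg
    split_ifs <;> omega
  have blH : ∀ x y, H x y → (3 ≤ c x y ∧ c x y ≤ h + 2) ∨ (h + 5 ≤ c x y ∧ c x y ≤ 2 * h + 4) := by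
    intro x y hxy
    have h1 := hHc x y hxy
    by_cases hx : low x
    · rw [cHl x y hxy hx]
      omega
    · rw [cHh x y hxy hx]
      omega
  refine ⟨c, ?_, ?_, ?_, ?_, ?_⟩
  · intro x y hxy
    by_cases hM : H x y
    · have := blH x y hM
      omega
    · have := blM x y ⟨hxy, hM⟩
      omega
  · intro x
    obtain ⟨e1, e2, hne, hee⟩ := card_eq_two.mp (hl x)
    have he1 : l e1 = x := (mem_filter.mp (by rw [hee]; exact mem_insert_self _ _ :
      e1 ∈ univ.filter (fun e : E => l e = x))).2
    have he2 : l e2 = x := (mem_filter.mp (by rw [hee]; simp :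
      e2 ∈ univ.filter (fun e : E => l e = x))).2
    have hdiff := hpx e1 e2 hne (he1.trans he2.symm)
    have hall : ∀ y (hM : adj x y ∧ ¬ H x y), pos ⟨(x, y), hM⟩ = pos e1 ∨
        pos ⟨(x, y), hM⟩ = pos e2 := by
      intro y hM
      have h1 : (⟨(x, y), hM⟩ : E) ∈ univ.filter (fun e : E => l e = x) :=
        mem_filter.mpr ⟨mem_univ _, rfl⟩
      rw [hee] at h1
      simp only [mem_insert, mem_singleton] at h1
      rcases h1 with h1 | h1
      · exact Or.inl (by rw [h1])
      · exact Or.inr (by rw [h1])
    by_cases hx : low x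
    · have b1 := hplow e1 (by rw [he1]; exact hx)
      have b2 := hplow e2 (by rw [he2]; exact hx)
      refine ⟨min (pos e1) (pos e2), fun y hxy => ?_⟩
      by_cases hM : H x y
      · rw [cHl x y hM hx]
        have := hHc x y hM
        omega
      · rw [cM x y ⟨hxy, hM⟩]
        have h3 := hall y ⟨hxy, hM⟩
        unfold gg
        split_ifs <;> omega
    · have b1 := hphigh e1 (by rw [he1]; exact hx)
      have b2 := hphigh e2 (by rw [he2]; exact hx)
      refine ⟨h + min (pos e1) (pos e2), fun y hxy => ?_⟩
      by_cases hM : H x y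
      · rw [cHh x y hM hx]
        have := hHc x y hM
        omega
      · rw [cM x y ⟨hxy, hM⟩]
        have h3 := hall y ⟨hxy, hM⟩
        unfold gg
        split_ifs <;> omega
  · intro x y y' hxy hxy' heq
    by_cases hM : H x y
    · by_cases hM' : H x y'
      · have h1 : hc (x, y) = hc (x, y') := by
          by_cases hx : low x
          · rw [cHl x y hM hx, cHl x y' hM' hx] at heq
            omega
          · rw [cHh x y hM hx, cHh x y' hM' hx] at heq
            omega
        have h2 := hc2 (x, y) (mem_filter.mpr ⟨mem_univ _, hM⟩) (x, y')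
          (mem_filter.mpr ⟨mem_univ _, hM'⟩) rfl h1
        exact (Prod.mk.inj h2).2
      · have h1 := blH x y hM
        have h2 := blM x y' ⟨hxy', hM'⟩
        omega
    · by_cases hM' : H x y'
      · have h1 := blH x y' hM'
        have h2 := blM x y ⟨hxy, hM⟩
        omega
      · by_contra hne
        have h1 := hpx ⟨(x, y), hxy, hM⟩ ⟨(x, y'), hxy', hM'⟩ (by
          intro h2
          exact hne (Prod.mk.inj (Subtype.mk.inj h2)).2) rfl
        rw [cM x y ⟨hxy, hM⟩, cM x y' ⟨hxy', hM'⟩] at heq
        unfold gg at heq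
        split_ifs at heq <;> omega
  · intro y
    have h0 := hs y
    refine ⟨s y, fun x hxy => ?_⟩
    by_cases hM : H x y
    · have := blH x y hM
      omega
    · rw [cM x y ⟨hxy, hM⟩]
      have h1 := hpy ⟨(x, y), hxy, hM⟩
      have h2 : r ⟨(x, y), hxy, hM⟩ = y := rfl
      rw [h2] at h1
      unfold gg
      split_ifs <;> omega
  · intro y x x' hxy hxy' heq
    by_cases hM : H x y
    · by_cases hM' : H x' y
      · have b1 := hHc x y hM
        have b2 := hHc x' y hM'
        have h1 : hc (x, y) = hc (x', y) ∧ (low x ↔ low x') := by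
          by_cases hx : low x
          · by_cases hx' : low x'
            · rw [cHl x y hM hx, cHl x' y hM' hx'] at heq
              exact ⟨by omega, iff_of_true hx hx'⟩
            · rw [cHl x y hM hx, cHh x' y hM' hx'] at heq
              omega
          · by_cases hx' : low x'
            · rw [cHh x y hM hx, cHl x' y hM' hx'] at heq
              omega
            · rw [cHh x y hM hx, cHh x' y hM' hx'] at heq
              exact ⟨by omega, iff_of_false hx hx'⟩
        have h2 := hc3 (x, y) (mem_filter.mpr ⟨mem_univ _, hM⟩) (x', y)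
          (mem_filter.mpr ⟨mem_univ _, hM'⟩) (by
            simp only [Prod.mk.injEq, decide_eq_decide, true_and]
            exact h1.2) h1.1
        exact (Prod.mk.inj h2).1
      · have h1 := blH x y hM
        have h2 := blM x' y ⟨hxy', hM'⟩
        omega
    · by_cases hM' : H x' y
      · have h1 := blH x' y hM'
        have h2 := blM x y ⟨hxy, hM⟩
        omega
      · rw [cM x y ⟨hxy, hM⟩, cM x' y ⟨hxy', hM'⟩] at heq
        have p1 := posb ⟨(x, y), hxy, hM⟩
        have p2 := posb ⟨(x', y), hxy', hM'⟩
        have h1 : pos ⟨(x, y), hxy, hM⟩ = pos ⟨(x', y), hxy', hM'⟩ := by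
          unfold gg at heq
          split_ifs at heq <;> omega
        have h2 := hpinj ⟨(x, y), hxy, hM⟩ ⟨(x', y), hxy', hM'⟩ rfl h1
        exact (Prod.mk.inj (Subtype.mk.inj h2)).1

end Pool.Agent.H67.IC
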