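import Mathlib

/-!
# Consecutive colourings of (a, 2a)-biregular graphs: matchings in regular bipartite multigraphs

A bipartite multigraph is given by a finite set `S` of edges and the maps `l`, `r` to the two classes of
vertices.
-/

set_option autoImplicit false

namespace Pool.Agent.H67.IC

open Finset

variable {E A B : Type} [DecidableEq E] [Fintype A] [Fintype B] [DecidableEq A] [DecidableEq B]

theorem card_filter_mem (S : Finset E) (l : E → A) (k : ℕ)
    (hl : ∀ a, (S.filter (fun e => l e = a)).card = k) (s : Finset A) :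
    (S.filter (fun e => l e ∈ s)).card = k * s.card := by
  have h1 : (S.filter (fun e => l e ∈ s)) = s.biUnion (fun a => S.filter (fun e => l e = a)) := by
    ext e
    simp only [mem_filter, mem_biUnion]
    constructor
    · rintro ⟨h, h'⟩
      exact ⟨l e, h', h, rfl⟩
    · rintro ⟨a, ha, h, rfl⟩
      exact ⟨h, ha⟩
  rw [h1, card_biUnion]
  · rw [sum_congr rfl (fun a _ => hl a), sum_const, smul_eq_mul, mul_comm]
  · intro a _ b _ hab
    rw [Function.onFun, disjoint_left]
    intro e he he'
    exact hab ((mem_filter.mp he).2.symm.trans (mem_filter.mp he').2)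

/-- A regular bipartite multigraph of positive degree has a perfect matching. -/
theorem exists_matching (S : Finset E) (l : E → A) (r : E → B) (k : ℕ) (hk : 0 < k)
    (hl : ∀ a, (S.filter (fun e => l e = a)).card = k)
    (hr : ∀ b, (S.filter (fun e => r e = b)).card = k) :
    ∃ T ⊆ S, (∀ a, (T.filter (fun e => l e = a)).card = 1) ∧
      ∀ b, (T.filter (fun e => r e = b)).card = 1 := by
  classical
  have hall : ∀ s : Finset A, s.card ≤
      (s.biUnion (fun a => (S.filter (fun e => l e = a)).image r)).card := by
    intro s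
    have h1 := card_filter_mem S l k hl s
    have h2 := card_filter_mem S r k hr
      (s.biUnion (fun a => (S.filter (fun e => l e = a)).image r))
    have h3 : (S.filter (fun e => l e ∈ s)) ⊆ S.filter (fun e => r e ∈
        s.biUnion (fun a => (S.filter (fun e => l e = a)).image r)) := by
      intro e he
      rw [mem_filter] at he ⊢
      refine ⟨he.1, mem_biUnion.mpr ⟨l e, he.2, mem_image.mpr ⟨e, ?_, rfl⟩⟩⟩
      exact mem_filter.mpr ⟨he.1, rfl⟩
    have h4 := card_le_card h3
    rw [h1, h2] at h4
    exact Nat.le_of_mul_le_mul_left h4 hk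
  obtain ⟨g, hg, hgt⟩ := (Finset.all_card_le_biUnion_card_iff_exists_injective _).mp hall
  have hch : ∀ a, ∃ e ∈ S, l e = a ∧ r e = g a := by
    intro a
    obtain ⟨e, he, he'⟩ := mem_image.mp (hgt a)
    exact ⟨e, (mem_filter.mp he).1, (mem_filter.mp he).2, he'⟩
  choose f hfS hfl hfr using hch
  have hcard : Fintype.card A = Fintype.card B := by
    have h1 := card_filter_mem S l k hl univ
    have h2 := card_filter_mem S r k hr univ
    simp only [mem_univ, filter_true] at h1 h2
    rw [h1] at h2
    exact Nat.eq_of_mul_eq_mul_left hk h2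
  have hbij : Function.Bijective g := (Fintype.bijective_iff_injective_and_card g).mpr ⟨hg, hcard⟩
  refine ⟨univ.image f, ?_, ?_, ?_⟩
  · intro e he
    obtain ⟨a, -, rfl⟩ := mem_image.mp he
    exact hfS a
  · intro a
    rw [card_eq_one]
    refine ⟨f a, ?_⟩
    ext e
    simp only [mem_filter, mem_image, mem_univ, true_and, mem_singleton]
    constructor
    · rintro ⟨⟨a', rfl⟩, h⟩
      rw [hfl] at h
      rw [h]
    · rintro rfl
      exact ⟨⟨a, rfl⟩, hfl a⟩
  · intro b
    obtain ⟨a, rfl⟩ := hbij.2 b
    rw [card_eq_one]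
    refine ⟨f a, ?_⟩
    ext e
    simp only [mem_filter, mem_image, mem_univ, true_and, mem_singleton]
    constructor
    · rintro ⟨⟨a', rfl⟩, h⟩
      rw [hfr] at h
      rw [hg h]
    · rintro rfl
      exact ⟨⟨a, rfl⟩, hfr a⟩

theorem eq_of_card_one {T : Finset E} {C : Type} [DecidableEq C] {l : E → C} {c : C}
    (h : (T.filter (fun e => l e = c)).card = 1) {e e' : E} (he : e ∈ T) (he' : e' ∈ T)
    (hl : l e = c) (hl' : l e' = c) : e = e' := by
  rw [card_eq_one] at h
  obtain ⟨x, hx⟩ := h
  have h1 : e ∈ T.filter (fun e => l e = c) := mem_filter.mpr ⟨he, hl⟩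
  have h2 : e' ∈ T.filter (fun e => l e = c) := mem_filter.mpr ⟨he', hl'⟩
  rw [hx, mem_singleton] at h1 h2
  rw [h1, h2]

theorem card_filter_sdiff (S T : Finset E) (hT : T ⊆ S) {C : Type} [DecidableEq C] (l : E → C)
    (c : C) : ((S \ T).filter (fun e => l e = c)).card =
      (S.filter (fun e => l e = c)).card - (T.filter (fun e => l e = c)).card := by
  have h : (S \ T).filter (fun e => l e = c) =
      (S.filter (fun e => l e = c)) \ (T.filter (fun e => l e = c)) := by
    ext e
    simp only [mem_filter, mem_sdiff]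
    tauto
  rw [h, card_sdiff_of_subset]
  exact filter_subset_filter _ hT

/-- A regular bipartite multigraph of degree `k` has a proper edge colouring with `k` colours. -/
theorem exists_colouring (k : ℕ) : ∀ (S : Finset E) (l : E → A) (r : E → B),
    (∀ a, (S.filter (fun e => l e = a)).card = k) →
    (∀ b, (S.filter (fun e => r e = b)).card = k) →
    ∃ c : E → ℕ, (∀ e ∈ S, c e < k) ∧
      (∀ e ∈ S, ∀ e' ∈ S, l e = l e' → c e = c e' → e = e') ∧
      (∀ e ∈ S, ∀ e' ∈ S, r e = r e' → c e = c e' → e = e') := by
  induction k with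
  | zero =>
    intro S l r hl _
    have hS : ∀ e, e ∉ S := by
      intro e he
      have h1 := hl (l e)
      rw [card_eq_zero] at h1
      have h2 : e ∈ S.filter (fun e' => l e' = l e) := mem_filter.mpr ⟨he, rfl⟩
      rw [h1] at h2
      exact notMem_empty _ h2
    exact ⟨fun _ => 0, fun e he => absurd he (hS e), fun e he => absurd he (hS e),
      fun e he => absurd he (hS e)⟩
  | succ k ih =>
    intro S l r hl hr
    obtain ⟨T, hTS, hTl, hTr⟩ := exists_matching S l r (k + 1) (Nat.succ_pos k) hl hr
    obtain ⟨c, h1, h2, h3⟩ := ih (S \ T) l r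
      (fun a => by rw [card_filter_sdiff S T hTS l a, hl, hTl]; rfl)
      (fun b => by rw [card_filter_sdiff S T hTS r b, hr, hTr]; rfl)
    refine ⟨fun e => if e ∈ T then k else c e, ?_, ?_, ?_⟩
    · intro e he
      by_cases hT : e ∈ T
      · simp only [if_pos hT]
        exact Nat.lt_succ_self k
      · simp only [if_neg hT]
        exact (h1 e (mem_sdiff.mpr ⟨he, hT⟩)).trans (Nat.lt_succ_self k)
    · intro e he e' he' hll hc
      by_cases hT : e ∈ T
      · by_cases hT' : e' ∈ T
        · exact eq_of_card_one (hTl (l e)) hT hT' rfl hll.symm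
        · simp only [if_pos hT, if_neg hT'] at hc
          have := h1 e' (mem_sdiff.mpr ⟨he', hT'⟩)
          omega
      · by_cases hT' : e' ∈ T
        · simp only [if_neg hT, if_pos hT'] at hc
          have := h1 e (mem_sdiff.mpr ⟨he, hT⟩)
          omega
        · simp only [if_neg hT, if_neg hT'] at hc
          exact h2 e (mem_sdiff.mpr ⟨he, hT⟩) e' (mem_sdiff.mpr ⟨he', hT'⟩) hll hc
    · intro e he e' he' hll hc
      by_cases hT : e ∈ T
      · by_cases hT' : e' ∈ T
        · exact eq_of_card_one (hTr (r e)) hT hT' rfl hll.symm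
        · simp only [if_pos hT, if_neg hT'] at hc
          have := h1 e' (mem_sdiff.mpr ⟨he', hT'⟩)
          omega
      · by_cases hT' : e' ∈ T
        · simp only [if_neg hT, if_pos hT'] at hc
          have := h1 e (mem_sdiff.mpr ⟨he, hT⟩)
          omega
        · simp only [if_neg hT, if_neg hT'] at hc
          exact h3 e (mem_sdiff.mpr ⟨he, hT⟩) e' (mem_sdiff.mpr ⟨he', hT'⟩) hll hc

end Pool.Agent.H67.IC
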